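import Mathlib
import Pool.Agent.H.MP_c7d465_al.A

set_option autoImplicit false

open scoped Pointwise

namespace Pool.Agent.Results.MP_c7d465_al.No

/-- A Sylow system: one Sylow `p`-subgroup for each prime divisor `p` of `|G|`, pairwise permutable. -/
structure SylowSystem (G : Type) [Group G] where
  S : ∀ p : (Nat.card G).primeFactors, Sylow p G
  perm : ∀ p q, ((S p : Subgroup G) : Set G) * ((S q : Subgroup G) : Set G) =
    ((S q : Subgroup G) : Set G) * ((S p : Subgroup G) : Set G)

/-- The system normalizer. -/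
def SylowSystem.normalizer {G : Type} [Group G] (B : SylowSystem G) : Subgroup G :=
  ⨅ p, Subgroup.normalizer ((B.S p : Subgroup G) : Set G)

/-- The hypercentre: the union of the upper central series. -/
def hypercentre (G : Type) [Group G] : Subgroup G := ⨆ i, Subgroup.upperCentralSeries G i

theorem result : ∀ n : ℕ, 0 < n → ∃ (G : Type) (_ : Group G), Finite G ∧ Group.IsSolvable G ∧ Nonempty (SylowSystem G) ∧
    ∀ B : Fin n → SylowSystem G, hypercentre G ≠ ⨅ i, (B i).normalizer := by
  intro n _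
  open H.MP_c7d465_al in
  refine ⟨Af (n + 1), inferInstance, inferInstance, inferInstance, ⟨⟨fun _ => default, fun p q => ?_⟩⟩, fun B e => ?_⟩
  · by_cases h : p = q
    · rw [h]
    by_cases h2 : q.1 = 2
    · have := H.MP_c7d465_al.nrm (k := n + 1) (Nat.prime_of_mem_primeFactors p.2) (fun e => h (Subtype.ext (e.trans h2.symm))) default
      exact (Subgroup.set_mul_normal_comm _ _).symm
    · have := H.MP_c7d465_al.nrm (k := n + 1) (Nat.prime_of_mem_primeFactors q.2) h2 default
      exact Subgroup.set_mul_normal_comm _ _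
  · have h : ∀ i, ∃ v, ∀ f : Fin (n + 1) → ZMod 3, f ⬝ᵥ v = 0 →
        (⟨1, f, 0, 0⟩ : H.MP_c7d465_al.Af (n + 1)) ∈ (B i).normalizer := fun i => by
      by_cases h2 : 2 ∈ (Nat.card (H.MP_c7d465_al.Af (n + 1))).primeFactors
      · obtain ⟨v, hv⟩ := H.MP_c7d465_al.refl ((B i).S ⟨2, h2⟩).isPGroup'
        refine ⟨v, fun f hf => Subgroup.mem_iInf.2 fun ⟨p, hp⟩ => ?_⟩
        by_cases e : p = 2
        · subst e
          exact Subgroup.centralizer_le_normalizer _ fun g hg => hv f hf g hg
        · have := H.MP_c7d465_al.nrm (Nat.prime_of_mem_primeFactors hp) e ((B i).S ⟨p, hp⟩)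
          rw [Subgroup.normalizer_eq_top]; trivial
      · refine ⟨0, fun f _ => Subgroup.mem_iInf.2 fun ⟨p, hp⟩ => ?_⟩
        have := H.MP_c7d465_al.nrm (Nat.prime_of_mem_primeFactors hp) (fun e => h2 (e ▸ hp)) ((B i).S ⟨p, hp⟩)
        rw [Subgroup.normalizer_eq_top]; trivial
    choose v hv using h
    obtain ⟨f, f0, hf⟩ := H.MP_c7d465_al.ker n v
    have : (⟨1, f, 0, 0⟩ : H.MP_c7d465_al.Af (n + 1)) ∈ hypercentre _ := e ▸ Subgroup.mem_iInf.2 fun i => hv i f (hf i)
    simp only [hypercentre, H.MP_c7d465_al.ucs, iSup_bot, Subgroup.mem_bot] at this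
    exact f0 (congrArg H.MP_c7d465_al.Af.f this)

end Pool.Agent.Results.MP_c7d465_al.No
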